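import Pool.Agent.helper37.ND.Spec

/-! # Row ZNU of theorem ND: the groups `Zg` of two unit classes of the same block are conjugate -/

set_option autoImplicit false

namespace Pool.Agent.ND

open Pool.Agent.helper58.DC Pool.Agent.DI Pool.Agent.GR Pool.Agent.OB Pool.Agent.DR Pool.Agent.FI Pool.Agent.FI3 Pool.Agent.FI4 Pool.Agent.FI4I Pool.Agent.LE Pool.Agent.L5 Pool.Agent.NAB

theorem ZNU_ord {G : Type} [Group G] (l z : G) : orderOf (l * z * l⁻¹) = orderOf z := by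
  have h2 := orderOf_injective (MulAut.conj l).toMonoidHom (MulAut.conj l).injective z
  rw [← h2]
  rfl

theorem ZNU_mul {G : Type} [Group G] (g h : G) (P : Subgroup G) : cjS g (cjS h P) = cjS (g * h) P := by
  ext x
  rw [mem_cjS, mem_cjS, mem_cjS]
  have h1 : h⁻¹ * (g⁻¹ * x * g) * h = (g * h)⁻¹ * x * (g * h) := by group
  rw [h1]

theorem ZNU_one {G : Type} [Group G] (P : Subgroup G) : cjS 1 P = P := by
  ext x
  rw [mem_cjS]
  simp

theorem ZNU (hNUD : NUD_stmt) (hDEX : DEX_stmt) (hZGD : ZGD_stmt) (hZGP : ZGP_stmt) : ZNU_stmt := by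
  intro p e m M hS hme G _ _ K η hη z x h
  have hm : m + 3 ≤ e := by omega
  have hg := (hZGP p e m hS.pr hm G z h.pe h.od).1
  constructor
  · intro z' x' h'
    obtain ⟨D, y, hD, _⟩ := hDEX p M hS G K η hη
    obtain ⟨hc, k, hk, hkD, hkc⟩ := (hNUD p e m M hS G K η hη z x h).1 D y hD
    obtain ⟨_, k', hk', hkD', _⟩ := (hNUD p e m M hS G K η hη z' x' h').1 D y hD
    have h1 := (hZGD p e m hS.pr hme G D hD.pg hc (k * z * k⁻¹) hkD hkc (by rw [ZNU_ord, h.od])).1 (k' * z' * k'⁻¹) hkD'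
      (by rw [ZNU_ord, h'.od])
    have hg' := (hZGP p e m hS.pr hm G z' h'.pe h'.od).1
    rw [hg k, hg' k'] at h1
    refine ⟨k'⁻¹ * k, K.mul_mem (K.inv_mem hk') hk, ?_⟩
    rw [← ZNU_mul, ← h1, ZNU_mul, inv_mul_cancel, ZNU_one]
  · intro D y hD w hw hwo
    obtain ⟨hc, k, hk, hkD, hkc⟩ := (hNUD p e m M hS G K η hη z x h).1 D y hD
    have h1 := (hZGD p e m hS.pr hme G D hD.pg hc (k * z * k⁻¹) hkD hkc (by rw [ZNU_ord, h.od])).1 w hw hwo
    rw [hg k] at h1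
    refine ⟨k⁻¹, K.inv_mem hk, ?_⟩
    rw [h1, ZNU_mul, inv_mul_cancel, ZNU_one]

end Pool.Agent.ND
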